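import Pool.Agent.Helper46.RO.Base

/-! Project RO, packet A2: assembly of the theorem on kernels. -/

namespace Pool.Agent.Helper29.RO

open Pool.Agent.Helper46.RO
open scoped NNReal

universe u

theorem exists_symGen (L : Type u) [Group L] [h : Group.FG L] : ∃ X : Finset L, SymGen X := by
  classical
  obtain ⟨S, hS⟩ := h.out
  refine ⟨S ∪ S.image (fun x => x⁻¹), ?_, ?_⟩
  · intro x hx
    rw [Finset.mem_union, Finset.mem_image] at hx ⊢
    rcases hx with hx | ⟨y, hy, rfl⟩
    · exact Or.inr ⟨x, hx, rfl⟩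
    · left
      rw [inv_inv]
      exact hy
  · rw [eq_top_iff, ← hS]
    apply Subgroup.closure_mono
    intro x hx
    exact Finset.mem_coe.2 (Finset.mem_union_left _ (Finset.mem_coe.1 hx))

theorem isChar_chr {L : Type u} [Group L] {n : ℕ} {π : L → Fin n → ℤ} (hπ : IsHomZ π)
    (w : Fin n → ℝ) : IsChar (chr π w) := by
  intro a b
  unfold chr
  rw [← Finset.sum_add_distrib]
  refine Finset.sum_congr rfl fun i _ => ?_
  rw [hπ a b, Pi.add_apply]
  push_cast
  ring

/-- A2. -/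
theorem A2 (e2 : GoalE2.{u}) (e3 : GoalE3.{u}) (e4 : GoalE4.{u}) (e5 : GoalE5.{u})
    (e6 : GoalE6.{u}) (e7 : GoalE7.{u}) (p1 : GoalP1.{u}) (p2 : GoalP2.{u}) (p3 : GoalP3.{u})
    (a1 : GoalA1.{u}) : GoalA2.{u} := by
  intro L _ _ N _ hN hnfg
  obtain ⟨n, π, hπ, hsurj, hle, hfg⟩ := a1 L N hN
  obtain ⟨X, hX⟩ := exists_symGen L
  have hk : ¬ (kerZ π hπ).FG := fun h => hnfg (hfg h)
  have hU : ¬ Unif X π := fun h => hk (p3 L X n π hπ hX (p2 L X n π hX hπ h))
  have hw : ∃ w : Fin n → ℝ, w ≠ 0 ∧ ¬ Margin X (chr π w) := by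
    by_contra h
    apply hU
    apply p1 L X n π hX hπ
    intro w hw0
    by_contra hm
    exact h ⟨w, hw0, hm⟩
  obtain ⟨w, hw0, hmargin⟩ := hw
  have hχ : IsChar (chr π w) := isChar_chr hπ w
  have hN0 : ∀ g ∈ N, chr π w g = 0 := by
    intro g hg
    have h0 : π g = 0 := hle hg
    unfold chr
    rw [h0]
    simp
  have hne : ∃ g, chr π w g ≠ 0 := by
    obtain ⟨i, hi⟩ := Function.ne_iff.1 hw0
    obtain ⟨g, hg⟩ := hsurj (Pi.single i 1)
    refine ⟨g, ?_⟩
    have : chr π w g = w i := by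
      unfold chr
      rw [hg, Finset.sum_eq_single i]
      · simp
      · intro j _ hj
        rw [Pi.single_eq_of_ne hj]
        simp
      · intro h; exact absurd (Finset.mem_univ i) h
    rw [this]
    exact hi
  have hlag : ¬ Lag X (chr π w) := fun h => hmargin (e7 L X (chr π w) hX hχ hne h)
  have hnofix : ∀ C, IsEnd X (chr π w) C → ∃ g, actF (chr π w) g C ≠ C := by
    intro C hC
    by_contra h
    apply hlag
    apply e6 L X (chr π w) hX hχ C hC
    intro g
    by_contra hg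
    exact h ⟨g, hg⟩
  have h2 := e2 L X (chr π w) hX hχ
  have h4 := e4 L X (chr π w) hX hχ
  have h5 := e5 L X (chr π w) hX hχ
  refine ⟨chr π w, hχ, hN0, hne, ⟨?_⟩⟩
  exact
    { E := {C : ℝ → Set L // IsEnd X (chr π w) C}
      act := fun g C => ⟨actF (chr π w) g C.1, h2.1 g C.1 C.2⟩
      dist := fun C C' => distF C.1 C'.1
      act_one := fun z => Subtype.ext (h2.2.1 z.1)
      act_mul := fun a b z => Subtype.ext (h2.2.2 a b z.1)
      dist_eq_zero := fun x y => by
        rw [h4.1 x.1 y.1]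
        exact ⟨fun h => Subtype.ext h, fun h => congrArg Subtype.val h⟩
      dist_comm := fun x y => h4.2.1 x.1 y.1
      dist_ultra := fun x y z => h4.2.2.1 x.1 y.1 z.1 x.2 y.2 z.2
      dist_act := fun a x y => h4.2.2.2 a x.1 y.1 x.2 y.2
      exists_fix := fun a ha => by
        obtain ⟨C, hC, hfix⟩ := h5 a ha
        exact ⟨⟨C, hC⟩, Subtype.ext hfix⟩
      nofix := fun x => by
        obtain ⟨g, hg⟩ := hnofix x.1 x.2
        exact ⟨g, fun h => hg (congrArg Subtype.val h)⟩ }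

end Pool.Agent.Helper29.RO
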