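import Pool.Agent.Helper11.Gap.Polycyclic

/-!
# Non-polycyclic nilpotent-by-nilpotent-by-abelian groups
-/

namespace Pool.Agent.Helper29.RO

open Pool.Agent.Helper11.Gap (IsPolycyclic)
open scoped commutatorElement

universe u v

/-- Extensions of finitely generated nilpotent groups are polycyclic. -/
def GoalPC : Prop := ∀ (Q : Type u) [Group Q] [Group.FG Q] (A : Subgroup Q) [A.Normal],
  Group.IsNilpotent A → Group.IsNilpotent (commutator (Q ⧸ A)) → A.FG →
  (commutator (Q ⧸ A)).FG → IsPolycyclic Q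

theorem nil_of_comm {H : Type v} [Group H] (K : Subgroup H) (h : ⁅K, K⁆ = ⊥) :
    Group.IsNilpotent K := by
  have hc : ∀ a b : K, a * b = b * a := by
    intro a b
    have h1 : ⁅(a : H), (b : H)⁆ ∈ ⁅K, K⁆ := Subgroup.commutator_mem_commutator a.2 b.2
    rw [h, Subgroup.mem_bot, commutatorElement_eq_one_iff_mul_comm] at h1
    exact Subtype.ext h1
  let _ : CommGroup K := { (inferInstance : Group K) with mul_comm := hc }
  exact CommGroup.isNilpotent

theorem comm_quot_bot {H : Type v} [Group H] (M : Subgroup H) [M.Normal]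
    (h : commutator H ≤ M) : commutator (H ⧸ M) = ⊥ := by
  rw [eq_bot_iff, commutator_def, Subgroup.commutator_le]
  intro x _ y _
  obtain ⟨x, rfl⟩ := QuotientGroup.mk'_surjective _ x
  obtain ⟨y, rfl⟩ := QuotientGroup.mk'_surjective _ y
  rw [Subgroup.mem_bot, ← map_commutatorElement, QuotientGroup.mk'_apply,
    QuotientGroup.eq_one_iff]
  exact h (Subgroup.commutator_mem_commutator (Subgroup.mem_top _) (Subgroup.mem_top _))

theorem alt (hPC : GoalPC.{u}) {Q : Type u} [Group Q] [Group.FG Q] (A : Subgroup Q) [A.Normal]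
    (h1 : Group.IsNilpotent A) (h2 : Group.IsNilpotent (commutator (Q ⧸ A)))
    (h3 : ¬ IsPolycyclic Q) :
    ∃ (N : Subgroup Q) (_ : N.Normal), Group.IsNilpotent (commutator (Q ⧸ N)) ∧ ¬ N.FG := by
  by_cases hA : A.FG
  swap
  · exact ⟨A, inferInstance, h2, hA⟩
  have hB : ¬ (commutator (Q ⧸ A)).FG := fun hB => h3 (hPC Q A h1 h2 hA hB)
  refine ⟨(commutator (Q ⧸ A)).comap (QuotientGroup.mk' A), inferInstance, ?_, ?_⟩
  · apply nil_of_comm
    have h4 : commutator (Q ⧸ (commutator (Q ⧸ A)).comap (QuotientGroup.mk' A)) = ⊥ := by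
      apply comm_quot_bot
      rw [← Subgroup.map_le_iff_le_comap, commutator_def, Subgroup.map_commutator]
      exact Subgroup.commutator_mono le_top le_top
    rw [h4, Subgroup.commutator_bot_left]
  · intro hfg
    apply hB
    have h5 : ((commutator (Q ⧸ A)).comap (QuotientGroup.mk' A)).map (QuotientGroup.mk' A) =
        commutator (Q ⧸ A) :=
      Subgroup.map_comap_eq_self_of_surjective (QuotientGroup.mk'_surjective A) _
    have h6 : Group.FG ((commutator (Q ⧸ A)).comap (QuotientGroup.mk' A)) :=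
      (Group.fg_iff_subgroup_fg _).2 hfg
    have h7 : Group.FG (((commutator (Q ⧸ A)).comap (QuotientGroup.mk' A)).map
        (QuotientGroup.mk' A)) :=
      Group.fg_of_surjective (f := (QuotientGroup.mk' A).subgroupMap _)
        ((QuotientGroup.mk' A).subgroupMap_surjective _)
    rw [h5] at h7
    exact (Group.fg_iff_subgroup_fg _).1 h7

/-- Derived length three. -/
theorem alt_three (hPC : GoalPC.{u}) {Q : Type u} [Group Q] [Group.FG Q]
    (hd : derivedSeries Q 3 = ⊥) (h3 : ¬ IsPolycyclic Q) :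
    ∃ (N : Subgroup Q) (_ : N.Normal), Group.IsNilpotent (commutator (Q ⧸ N)) ∧ ¬ N.FG := by
  refine alt hPC (derivedSeries Q 2) (nil_of_comm _ hd) (nil_of_comm _ ?_) h3
  have e : commutator (Q ⧸ derivedSeries Q 2) =
      (derivedSeries Q 1).map (QuotientGroup.mk' (derivedSeries Q 2)) := by
    rw [derivedSeries_one, commutator_def, commutator_def, Subgroup.map_commutator,
      Subgroup.map_top_of_surjective _ (QuotientGroup.mk'_surjective _)]
  rw [e, ← Subgroup.map_commutator, Subgroup.map_eq_bot_iff, QuotientGroup.ker_mk']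
  exact le_of_eq rfl

end Pool.Agent.Helper29.RO
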