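import Pool.Agent.Helper29.RO.Alt
import Pool.Agent.Helper11.RO.PC

/-!
# Non-polycyclic nilpotent-by-nilpotent-by-abelian groups, without hypotheses
-/

namespace Pool.Agent.Helper29.RO

open Pool.Agent.Helper11.Gap (IsPolycyclic)

universe u

theorem goalPC : GoalPC.{u} := fun _ _ _ A _ => Pool.Agent.Helper11.RO.PC A

/-- A finitely generated group `Q`, not polycyclic, with nilpotent normal subgroup `A` and
nilpotent-by-abelian quotient `Q ⧸ A`, has a normal subgroup which is not finitely generated with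
nilpotent-by-abelian quotient. -/
theorem exists_not_fg {Q : Type u} [Group Q] [Group.FG Q] (A : Subgroup Q) [A.Normal]
    (h1 : Group.IsNilpotent A) (h2 : Group.IsNilpotent (commutator (Q ⧸ A)))
    (h3 : ¬ IsPolycyclic Q) :
    ∃ (N : Subgroup Q) (_ : N.Normal), Group.IsNilpotent (commutator (Q ⧸ N)) ∧ ¬ N.FG :=
  alt goalPC A h1 h2 h3

theorem exists_not_fg_three {Q : Type u} [Group Q] [Group.FG Q]
    (hd : derivedSeries Q 3 = ⊥) (h3 : ¬ IsPolycyclic Q) :
    ∃ (N : Subgroup Q) (_ : N.Normal), Group.IsNilpotent (commutator (Q ⧸ N)) ∧ ¬ N.FG :=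
  alt_three goalPC hd h3

end Pool.Agent.Helper29.RO
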