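import Pool.Agent.Helper49.RO.B2
import Pool.Agent.Helper46.RO.Goals3

/-!
# Uniform Rosset theorem: from metabelian to nilpotent-by-abelian quotients
-/

namespace Pool.Agent.Helper29.RO

open Pointwise Filter Topology
open Pool.Agent.Helper11.Gap (Sym Big)
open Pool.Agent.Helper46.RO (GoalA)

universe u v w

/-- The lower central series of `L = ker ψ ⊔ commutator G`, if the derived subgroup of the image
of `ψ` is nilpotent. -/
theorem lcs_le {G : Type u} [Group G] {H : Type v} [Group H] (ψ : G →* H)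
    (hnil : Group.IsNilpotent (commutator H)) (L : Subgroup G) (hL : L = ψ.ker ⊔ commutator G) :
    ∃ c : ℕ, (⊤ : Subgroup L).lowerCentralSeries c ≤ ψ.ker.subgroupOf L := by
  obtain ⟨c, hc⟩ := Subgroup.nilpotent_iff_lowerCentralSeries.1 hnil
  refine ⟨c, ?_⟩
  have hmem : ∀ x : L, ψ (x : G) ∈ commutator H := by
    intro x
    have h1 : (ψ.ker ⊔ commutator G).map ψ ≤ commutator H := by
      rw [Subgroup.map_sup]
      apply sup_le
      · rw [(Subgroup.map_eq_bot_iff _).2 le_rfl]
        exact bot_le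
      · rw [commutator_def, Subgroup.map_commutator, commutator_def]
        exact Subgroup.commutator_mono le_top le_top
    exact h1 ⟨x, hL.le x.2, rfl⟩
  let θ : L →* commutator H := (ψ.comp L.subtype).codRestrict (commutator H) hmem
  have h3 := Subgroup.map_lowerCentralSeries (⊤ : Subgroup L) θ c
  have h4 : ((⊤ : Subgroup L).map θ).lowerCentralSeries c ≤ ⊥ := by
    rw [← hc]
    exact Subgroup.lowerCentralSeries_mono c le_top
  rw [← h3] at h4
  intro x hx
  have h5 := h4 ⟨x, hx, rfl⟩
  rw [Subgroup.mem_bot] at h5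
  rw [Subgroup.mem_subgroupOf, MonoidHom.mem_ker]
  exact congrArg Subtype.val h5

/-- The nilpotent-by-abelian case. -/
theorem big_of_nil (hA : GoalA.{u}) {G : Type u} [Group G] [DecidableEq G] {T : Finset G}
    (hT : Sym T) (hgen : Subgroup.closure (T : Set G) = ⊤) {H : Type v} [Group H] (ψ : G →* H)
    (hnil : Group.IsNilpotent (commutator H)) (hfg : ¬ ψ.ker.FG) : Big T := by
  obtain ⟨N, hN⟩ : ∃ N : Subgroup G, N = ψ.ker := ⟨_, rfl⟩
  have hNn : N.Normal := by rw [hN]; infer_instance
  obtain ⟨L, hL⟩ : ∃ L : Subgroup G, L = ψ.ker ⊔ commutator G := ⟨_, rfl⟩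
  obtain ⟨c, hc⟩ := lcs_le ψ hnil L hL
  rw [← hN] at hc hL hfg
  have hNL : N ≤ L := hL ▸ le_sup_left
  have hGL : commutator G ≤ L := hL ▸ le_sup_right
  have hLn : L.Normal := by rw [hL]; infer_instance
  have h1 : ¬ (N.subgroupOf L ⊔ commutator L).FG := by
    intro h
    apply hfg
    have h2 := Pool.Agent.Helper49.RO.fg_of_nilpotent_quotient L (N.subgroupOf L) c hc h
    have h3 : Group.FG (N.subgroupOf L) := (Group.fg_iff_subgroup_fg _).2 h2
    have h4 : Group.FG N :=
      Group.fg_of_surjective (f := (Subgroup.subgroupOfEquivOfLe hNL).toMonoidHom)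
        (Subgroup.subgroupOfEquivOfLe hNL).surjective
    exact (Group.fg_iff_subgroup_fg _).1 h4
  have e : (N.subgroupOf L ⊔ commutator L).map L.subtype = N ⊔ ⁅L, L⁆ := by
    rw [Subgroup.map_sup, Subgroup.subgroupOf_map_subtype, inf_eq_left.2 hNL, commutator_def,
      Subgroup.map_commutator]
    have : (⊤ : Subgroup L).map L.subtype = L := by
      rw [← MonoidHom.range_eq_map, Subgroup.range_subtype]
    rw [this]
  have hML : N ⊔ ⁅L, L⁆ ⊔ commutator G ≤ L :=
    sup_le (sup_le hNL (Subgroup.commutator_le_left L L)) hGL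
  refine hA G T hT hgen (N ⊔ ⁅L, L⁆) ((Subgroup.commutator_mono hML hML).trans le_sup_right) ?_
  intro h
  apply h1
  rw [← e] at h
  have h3 := (Group.fg_iff_subgroup_fg _).2 h
  have h4 : Group.FG (N.subgroupOf L ⊔ commutator L : Subgroup L) :=
    Group.fg_of_surjective (f := (Subgroup.equivMapOfInjective (N.subgroupOf L ⊔ commutator L)
      L.subtype L.subtype_injective).symm.toMonoidHom) (MulEquiv.surjective _)
  exact (Group.fg_iff_subgroup_fg _).1 h4

/-- The same for a normal subgroup. -/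
theorem big_of_nil_normal (hA : GoalA.{u}) (G : Type u) [Group G] [DecidableEq G] (T : Finset G)
    (hT : Sym T) (hgen : Subgroup.closure (T : Set G) = ⊤) (N : Subgroup G) [N.Normal]
    (hnil : Group.IsNilpotent (commutator (G ⧸ N))) (hfg : ¬ N.FG) : Big T :=
  big_of_nil hA hT hgen (QuotientGroup.mk' N) hnil (by rwa [QuotientGroup.ker_mk'])

/-- From blocks to the growth rate. -/
theorem rate_of_big {Γ : Type u} [Group Γ] [DecidableEq Γ] (S : Finset Γ) (hne : S.Nonempty)
    (hsymm : ∀ s ∈ S, s⁻¹ ∈ S) (C : Subgroup Γ) (hC : C = Subgroup.closure (S : Set Γ))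
    (hbig : ∀ T : Finset C, Sym T → Subgroup.closure (T : Set C) = ⊤ → Big T) :
    ∃ ρ : ℝ, Tendsto (fun n : ℕ => Real.log ((S ^ n).card : ℝ) / n) atTop (𝓝 ρ) ∧
      Real.log 2 / 328 ≤ ρ := by
  classical
  obtain ⟨ρ, hρ⟩ := Pool.Agent.Helper11.Gap.exists_rate S hne
  refine ⟨ρ, hρ, ?_⟩
  set T : Finset C := Finset.subtype (fun x => x ∈ C) (insert 1 S) with hTdef
  have hTmem : ∀ x : C, x ∈ T ↔ (x : Γ) = 1 ∨ (x : Γ) ∈ S := by
    intro x
    rw [hTdef, Finset.mem_subtype, Finset.mem_insert]
  have hTsym : Sym T := by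
    constructor
    · rw [hTmem]; exact Or.inl rfl
    · intro x hx
      rw [hTmem] at hx ⊢
      rcases hx with hx | hx
      · left; rw [Subgroup.coe_inv, hx, inv_one]
      · right; exact hsymm _ hx
  have hgen : Subgroup.closure (T : Set C) = ⊤ := by
    subst hC
    rw [eq_top_iff, ← Subgroup.closure_closure_coe_preimage (k := (S : Set Γ))]
    apply Subgroup.closure_mono
    intro x hx
    rw [Finset.mem_coe, hTmem]
    exact Or.inr hx
  have himg : T.image C.subtype = insert 1 S := by
    ext x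
    rw [Finset.mem_image]
    constructor
    · rintro ⟨y, hy, rfl⟩
      rw [hTmem] at hy
      rw [Finset.mem_insert]
      exact hy
    · intro hx
      rw [Finset.mem_insert] at hx
      have hxC : x ∈ C := by
        rcases hx with rfl | hx
        · exact C.one_mem
        · rw [hC]; exact Subgroup.subset_closure hx
      exact ⟨⟨x, hxC⟩, (hTmem _).2 hx, rfl⟩
  obtain ⟨l, m, hl, hgrow, hlm⟩ := hbig T hTsym hgen
  refine Pool.Agent.Helper11.Gap.rate_of_growth S hne hsymm ρ hρ l m hl (fun k => ?_) hlm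
  have e : ((insert 1 S) ^ (l * k)).card = (T ^ (l * k)).card := by
    rw [← himg, ← Finset.image_pow, Finset.card_image_of_injective _ C.subtype_injective]
  rw [e]
  exact hgrow k

/-- The growth gap for groups with a quotient `Q` which has a normal subgroup `N`, not finitely
generated, with `Q ⧸ N` nilpotent-by-abelian. -/
theorem main_nil (hA : GoalA.{u}) {Γ : Type u} [Group Γ] [DecidableEq Γ] (S : Finset Γ)
    (hsymm : ∀ s ∈ S, s⁻¹ ∈ S) {Q : Type v} [Group Q]
    (φ : Subgroup.closure (S : Set Γ) →* Q) (hφ : Function.Surjective φ) (N : Subgroup Q)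
    [N.Normal] (hnil : Group.IsNilpotent (commutator (Q ⧸ N))) (hfg : ¬ N.FG) :
    ∃ ρ : ℝ, Tendsto (fun n : ℕ => Real.log ((S ^ n).card : ℝ) / n) atTop (𝓝 ρ) ∧
      Real.log 2 / 328 ≤ ρ := by
  obtain ⟨ψ, hψ⟩ : ∃ ψ : Subgroup.closure (S : Set Γ) →* Q ⧸ N,
      ψ = (QuotientGroup.mk' N).comp φ := ⟨_, rfl⟩
  have hker : ¬ ψ.ker.FG := by
    intro h
    apply hfg
    have e : ψ.ker.map φ = N := by
      have h1 : ψ.ker = N.comap φ := by
        ext x
        rw [MonoidHom.mem_ker, Subgroup.mem_comap, hψ, MonoidHom.comp_apply,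
          QuotientGroup.mk'_apply, QuotientGroup.eq_one_iff]
      rw [h1, Subgroup.map_comap_eq_self_of_surjective hφ]
    have h2 : Group.FG ψ.ker := (Group.fg_iff_subgroup_fg _).2 h
    have h3 : Group.FG (ψ.ker.map φ) :=
      Group.fg_of_surjective (f := φ.subgroupMap ψ.ker) (φ.subgroupMap_surjective ψ.ker)
    rw [e] at h3
    exact (Group.fg_iff_subgroup_fg _).1 h3
  have hne : S.Nonempty := by
    by_contra hemp
    rw [Finset.not_nonempty_iff_eq_empty] at hemp
    apply hker
    have hbot : Subgroup.closure (S : Set Γ) = ⊥ := by rw [hemp]; simp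
    have h1 : ψ.ker = ⊥ := by
      rw [eq_bot_iff]
      intro x _
      rw [Subgroup.mem_bot]
      apply Subtype.ext
      exact Subgroup.mem_bot.1 (hbot.le x.2)
    rw [h1]
    exact ⟨∅, by simp⟩
  exact rate_of_big S hne hsymm _ rfl fun T hT hgen => big_of_nil hA hT hgen ψ hnil hker

end Pool.Agent.Helper29.RO
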