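import Pool.Agent.Helper29.RO.V2

/-!
# The theorem on derived length three is a special case of `v2`
-/

namespace Pool.Agent.Helper29.RO

open Pointwise Filter Topology
open Pool.Agent.Helper11.Gap (IsPolycyclic)

universe u v

/-- The statement of `v2`. -/
def StmtV2 : Prop := ∀ {Γ : Type u} [Group Γ] [DecidableEq Γ] (S : Finset Γ)
    (_ : ∀ s ∈ S, s⁻¹ ∈ S) {Q : Type v} [Group Q] (φ : Subgroup.closure (S : Set Γ) →* Q)
    (_ : Function.Surjective φ) (H : Subgroup Q) (f : ℕ) (_ : 0 < f) (_ : H.index = f)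
    (N : Subgroup H) [N.Normal] (_ : Group.IsNilpotent (commutator (H ⧸ N)))
    (_ : ¬ N.FG ∨ (Group.IsNilpotent N ∧ ¬ IsPolycyclic H)),
    ∃ ρ : ℝ, Tendsto (fun n : ℕ => Real.log ((S ^ n).card : ℝ) / n) atTop (𝓝 ρ) ∧
      Real.log 2 / (328 * (2 * f - 1)) ≤ ρ

/-- The captured statement of `NonPolycyclicClassThree` follows from `v2` (`H = Q`, `f = 1`,
`N = Q''`). -/
theorem classThree_of_v2 (hv2 : StmtV2.{u, v}) {Γ : Type u} [Group Γ] [DecidableEq Γ]
    (S : Finset Γ) (hsymm : ∀ s ∈ S, s⁻¹ ∈ S) {Q : Type v} [Group Q]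
    (φ : Subgroup.closure (S : Set Γ) →* Q) (hφ : Function.Surjective φ)
    (h3 : derivedSeries Q 3 = ⊥) (hnp : ¬ IsPolycyclic Q) :
    ∃ ρ : ℝ, Tendsto (fun n : ℕ => Real.log ((S ^ n).card : ℝ) / n) atTop (𝓝 ρ) ∧
      Real.log 2 / 328 ≤ ρ := by
  have e3 : derivedSeries (⊤ : Subgroup Q) 3 = ⊥ := by
    rw [← map_derivedSeries_eq (f := (Subgroup.topEquiv (G := Q)).symm.toMonoidHom)
      (Subgroup.topEquiv (G := Q)).symm.surjective 3, h3, Subgroup.map_bot]
  have e2 : commutator ((⊤ : Subgroup Q) ⧸ derivedSeries (⊤ : Subgroup Q) 2) =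
      (derivedSeries (⊤ : Subgroup Q) 1).map
        (QuotientGroup.mk' (derivedSeries (⊤ : Subgroup Q) 2)) := by
    rw [derivedSeries_one, commutator_def, commutator_def, Subgroup.map_commutator,
      Subgroup.map_top_of_surjective _ (QuotientGroup.mk'_surjective _)]
  have hnil : Group.IsNilpotent (commutator ((⊤ : Subgroup Q) ⧸
      derivedSeries (⊤ : Subgroup Q) 2)) := by
    apply nil_of_comm
    rw [e2, ← Subgroup.map_commutator, Subgroup.map_eq_bot_iff, QuotientGroup.ker_mk']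
    exact le_of_eq rfl
  obtain ⟨ρ, h1, h2⟩ := hv2 S hsymm φ hφ ⊤ 1 one_pos Subgroup.index_top
    (derivedSeries (⊤ : Subgroup Q) 2) hnil (Or.inr ⟨nil_of_comm _ e3, fun h => hnp
      (h.of_surjective (Subgroup.topEquiv (G := Q)).toMonoidHom
        (Subgroup.topEquiv (G := Q)).surjective)⟩)
  refine ⟨ρ, h1, ?_⟩
  have e : Real.log 2 / (328 * (2 * ((1 : ℕ) : ℝ) - 1)) = Real.log 2 / 328 := by norm_num
  rwa [e] at h2

theorem nil_of_injective {A : Type u} {B : Type v} [Group A] [Group B] (τ : A →* B)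
    (hτ : Function.Injective τ) [hB : Group.IsNilpotent B] : Group.IsNilpotent A := by
  obtain ⟨c, hc⟩ := Subgroup.nilpotent_iff_lowerCentralSeries.1 hB
  rw [Subgroup.nilpotent_iff_lowerCentralSeries]
  refine ⟨c, ?_⟩
  have h3 := Subgroup.map_lowerCentralSeries (⊤ : Subgroup A) τ c
  have h4 : ((⊤ : Subgroup A).map τ).lowerCentralSeries c ≤ ⊥ := by
    rw [← hc]
    exact Subgroup.lowerCentralSeries_mono c le_top
  rw [← h3, le_bot_iff, Subgroup.map_eq_bot_iff_of_injective _ hτ] at h4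
  exact h4

/-- The first version of the theorem (`H = Q`, `N` not finitely generated) follows from `v2`. -/
theorem main_of_v2 (hv2 : StmtV2.{u, v}) {Γ : Type u} [Group Γ] [DecidableEq Γ]
    (S : Finset Γ) (hsymm : ∀ s ∈ S, s⁻¹ ∈ S) {Q : Type v} [Group Q]
    (φ : Subgroup.closure (S : Set Γ) →* Q) (hφ : Function.Surjective φ)
    (N : Subgroup Q) [N.Normal] (hnil : Group.IsNilpotent (commutator (Q ⧸ N)))
    (hfg : ¬ N.FG) :
    ∃ ρ : ℝ, Tendsto (fun n : ℕ => Real.log ((S ^ n).card : ℝ) / n) atTop (𝓝 ρ) ∧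
      Real.log 2 / 328 ≤ ρ := by
  obtain ⟨N', hN'⟩ : ∃ N' : Subgroup (⊤ : Subgroup Q), N' = N.subgroupOf ⊤ := ⟨_, rfl⟩
  have hN'n : N'.Normal := by rw [hN']; infer_instance
  have hfg' : ¬ N'.FG := by
    intro h
    apply hfg
    rw [hN'] at h
    have h3 : Group.FG (N.subgroupOf (⊤ : Subgroup Q)) := (Group.fg_iff_subgroup_fg _).2 h
    have h4 : Group.FG N :=
      Group.fg_of_surjective
        (f := (Subgroup.subgroupOfEquivOfLe (le_top : N ≤ ⊤)).toMonoidHom)
        (Subgroup.subgroupOfEquivOfLe (le_top : N ≤ ⊤)).surjective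
    exact (Group.fg_iff_subgroup_fg _).1 h4
  -- the map `⊤ ⧸ N' → Q ⧸ N` is injective
  let θ : ((⊤ : Subgroup Q) ⧸ N') →* Q ⧸ N :=
    QuotientGroup.map N' N (Subgroup.subtype ⊤) (by
      rw [hN']
      intro x hx
      exact hx)
  have hθ : Function.Injective θ := by
    rw [injective_iff_map_eq_one]
    intro x hx
    obtain ⟨x, rfl⟩ := QuotientGroup.mk'_surjective _ x
    rw [QuotientGroup.mk'_apply, QuotientGroup.map_mk, QuotientGroup.eq_one_iff] at hx
    rw [QuotientGroup.mk'_apply, QuotientGroup.eq_one_iff, hN']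
    exact hx
  have hmem : ∀ x : commutator ((⊤ : Subgroup Q) ⧸ N'), θ x.1 ∈ commutator (Q ⧸ N) := by
    intro x
    have h1 : (commutator ((⊤ : Subgroup Q) ⧸ N')).map θ ≤ commutator (Q ⧸ N) := by
      rw [commutator_def, Subgroup.map_commutator, commutator_def]
      exact Subgroup.commutator_mono le_top le_top
    exact h1 ⟨x.1, x.2, rfl⟩
  let τ : commutator ((⊤ : Subgroup Q) ⧸ N') →* commutator (Q ⧸ N) :=
    (θ.comp (Subgroup.subtype _)).codRestrict _ hmem
  have hτ : Function.Injective τ := by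
    intro x y hxy
    apply Subtype.ext
    apply hθ
    exact congrArg Subtype.val hxy
  have hnil' : Group.IsNilpotent (commutator ((⊤ : Subgroup Q) ⧸ N')) :=
    nil_of_injective τ hτ
  obtain ⟨ρ, h1, h2⟩ := hv2 S hsymm φ hφ ⊤ 1 one_pos Subgroup.index_top N' hnil' (Or.inl hfg')
  refine ⟨ρ, h1, ?_⟩
  have e : Real.log 2 / (328 * (2 * ((1 : ℕ) : ℝ) - 1)) = Real.log 2 / 328 := by norm_num
  rwa [e] at h2

end Pool.Agent.Helper29.RO
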