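import Mathlib

/-!
# P. Hall's nilpotency criterion, virtual form

If `H'` is nilpotent and `H/H''` is virtually nilpotent, then `H` is virtually nilpotent.
-/

namespace Pool.Agent.Helper29.RO

open Subgroup

variable {G : Type*} [Group G]

theorem three_sub (A B C N : Subgroup G) [N.Normal]
    (h1 : ⁅⁅B, C⁆, A⁆ ≤ N) (h2 : ⁅⁅C, A⁆, B⁆ ≤ N) : ⁅⁅A, B⁆, C⁆ ≤ N := by
  have key : ∀ K : Subgroup G, K ≤ N ↔ K.map (QuotientGroup.mk' N) = ⊥ := by
    intro K
    rw [Subgroup.map_eq_bot_iff, QuotientGroup.ker_mk']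
  rw [key, Subgroup.map_commutator, Subgroup.map_commutator] at h1 h2 ⊢
  exact Subgroup.commutator_commutator_eq_bot_of_rotate h1 h2

theorem sup_comm_le (X Y R P : Subgroup G) [P.Normal] (hX : ⁅X, R⁆ ≤ P) (hY : ⁅Y, R⁆ ≤ P) :
    ⁅X ⊔ Y, R⁆ ≤ P := by
  have key : ∀ K : Subgroup G, K ≤ P ↔ K.map (QuotientGroup.mk' P) = ⊥ := by
    intro K
    rw [Subgroup.map_eq_bot_iff, QuotientGroup.ker_mk']
  rw [key, Subgroup.map_commutator, commutator_eq_bot_iff_le_centralizer] at hX hY ⊢
  rw [Subgroup.map_sup]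
  exact sup_le hX hY

/-- the iterated commutator `[A, R, …, R]` -/
def it (R A : Subgroup G) : ℕ → Subgroup G
  | 0 => A
  | n + 1 => ⁅it R A n, R⁆

theorem it_succ' (R A : Subgroup G) (n : ℕ) : it R A (n + 1) = it R ⁅A, R⁆ n := by
  induction n with
  | zero => rfl
  | succ n ih => rw [it, ih]; rfl

theorem it_mono {R R' A A' : Subgroup G} (hR : R ≤ R') (hA : A ≤ A') (n : ℕ) :
    it R A n ≤ it R' A' n := by
  induction n with
  | zero => exact hA
  | succ n ih => exact commutator_mono ih hR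

theorem it_add (R A : Subgroup G) (m n : ℕ) : it R A (m + n) = it R (it R A m) n := by
  induction n with
  | zero => rfl
  | succ n ih => rw [← add_assoc, it, ih]; rfl

theorem it_normal (R A : Subgroup G) [R.Normal] [A.Normal] (n : ℕ) : (it R A n).Normal := by
  induction n with
  | zero => assumption
  | succ n ih => rw [it]; infer_instance

theorem it_le (R A : Subgroup G) [R.Normal] [A.Normal] (n : ℕ) : it R A n ≤ A := by
  induction n with
  | zero => exact le_rfl
  | succ n ih =>
    have := it_normal R A n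
    exact (commutator_le_left _ _).trans ih

theorem it_anti (R A : Subgroup G) [R.Normal] [A.Normal] {m n : ℕ} (h : m ≤ n) :
    it R A n ≤ it R A m := by
  obtain ⟨k, rfl⟩ := Nat.exists_eq_add_of_le h
  rw [it_add]
  have := it_normal R A m
  exact it_le R _ k

theorem it_eq_lcs (R : Subgroup G) (n : ℕ) : it R R n = R.lowerCentralSeries n := by
  induction n with
  | zero => rfl
  | succ n ih => rw [it, ih]; rfl

theorem it_sup (R P : Subgroup G) [R.Normal] [P.Normal] (n : ℕ) : ∀ X Y : Subgroup G,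
    X.Normal → Y.Normal → it R X n ≤ P → it R Y n ≤ P → it R (X ⊔ Y) n ≤ P := by
  induction n with
  | zero => intro X Y _ _ hX hY; exact sup_le hX hY
  | succ n ih =>
    intro X Y hX0 hY0 hX hY
    rw [it_succ'] at hX hY ⊢
    have h1 : ⁅X ⊔ Y, R⁆ ≤ ⁅X, R⁆ ⊔ ⁅Y, R⁆ :=
      sup_comm_le X Y R _ le_sup_left le_sup_right
    exact (it_mono le_rfl h1 n).trans (ih _ _ inferInstance inferInstance hX hY)

theorem it_comm (R P : Subgroup G) [R.Normal] [P.Normal] (n : ℕ) : ∀ A B : Subgroup G,
    A.Normal → B.Normal → (∀ j k, j + k = n → ⁅it R A j, it R B k⁆ ≤ P) →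
      it R ⁅A, B⁆ n ≤ P := by
  induction n with
  | zero => intro A B _ _ h; exact h 0 0 rfl
  | succ n ih =>
    intro A B hA hB h
    rw [it_succ']
    have h1 : ⁅⁅A, B⁆, R⁆ ≤ ⁅⁅A, R⁆, B⁆ ⊔ ⁅A, ⁅B, R⁆⁆ := by
      apply three_sub
      · rw [commutator_comm]; exact le_sup_right
      · rw [commutator_comm R A]; exact le_sup_left
    refine (it_mono le_rfl h1 n).trans
      (it_sup R P n _ _ inferInstance inferInstance ?_ ?_)
    · apply ih _ _ inferInstance hB
      intro j k hjk
      rw [← it_succ']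
      exact h (j + 1) k (by omega)
    · apply ih _ _ hA inferInstance
      intro j k hjk
      rw [← it_succ']
      exact h j (k + 1) (by omega)

/-- P. Hall's theorem, relative form -/
theorem hall_aux (R M : Subgroup G) [R.Normal] [M.Normal] (d : ℕ) (hd : it R M d ≤ ⁅M, M⁆)
    (n : ℕ) : ∃ e, it R (it M M n) e ≤ it M M (n + 1) := by
  induction n with
  | zero => exact ⟨d, hd⟩
  | succ n ih =>
    obtain ⟨e, he⟩ := ih
    refine ⟨e + d, ?_⟩
    have hn := it_normal M M n
    have hn1 := it_normal M M (n + 1)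
    have hn2 := it_normal M M (n + 2)
    change it R ⁅it M M n, M⁆ (e + d) ≤ it M M (n + 2)
    apply it_comm R _ (e + d) _ _ hn inferInstance
    intro j k hjk
    rcases le_or_gt e j with h | h
    · exact commutator_mono ((it_anti R _ h).trans he) (it_le R M k)
    · have hk : d ≤ k := by omega
      have h1 : ⁅it R (it M M n) j, it R M k⁆ ≤ ⁅it M M n, ⁅M, M⁆⁆ :=
        commutator_mono (it_le R _ j) ((it_anti R M hk).trans hd)
      refine h1.trans ?_
      rw [commutator_comm]
      apply three_sub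
      · rw [commutator_comm M (it M M n)]
        exact le_rfl
      · exact le_rfl

theorem hall (R M : Subgroup G) [R.Normal] [M.Normal] (d c b : ℕ) (hd : it R M d ≤ ⁅M, M⁆)
    (hb : it R R b ≤ M) (hc : it M M c = ⊥) : ∃ e, it R R e = ⊥ := by
  have h1 : ∀ n, ∃ e, it R M e ≤ it M M n := by
    intro n
    induction n with
    | zero => exact ⟨0, le_rfl⟩
    | succ n ih =>
      obtain ⟨e, he⟩ := ih
      obtain ⟨e', he'⟩ := hall_aux R M d hd n
      refine ⟨e + e', ?_⟩
      rw [it_add]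
      exact (it_mono le_rfl he e').trans he'
  obtain ⟨e, he⟩ := h1 c
  refine ⟨b + e, ?_⟩
  rw [eq_bot_iff, it_add, ← hc]
  exact (it_mono le_rfl hb e).trans he

theorem not_vn_quot {H : Type*} [Group H] (hn : Group.IsNilpotent (commutator H))
    (h : ¬ ∃ K : Subgroup H, K.FiniteIndex ∧ Group.IsNilpotent K) :
    ¬ ∃ K : Subgroup (H ⧸ derivedSeries H 2), K.FiniteIndex ∧ Group.IsNilpotent K := by
  rintro ⟨K, hKf, hKn⟩
  apply h
  -- `M = H'`
  set M : Subgroup H := _root_.commutator H with hM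
  obtain ⟨c, hc⟩ := (isNilpotent_iff_lowerCentralSeries M).1 hn
  rw [← it_eq_lcs] at hc
  obtain ⟨a, ha⟩ := (isNilpotent_iff_lowerCentralSeries K).1 hKn
  rw [← it_eq_lcs] at ha
  -- `L` the preimage of the core
  obtain ⟨K0, hK0⟩ : ∃ K0, K0 = K.normalCore := ⟨_, rfl⟩
  have hK0n : K0.Normal := by rw [hK0]; infer_instance
  have hK0f : K0.FiniteIndex := by rw [hK0]; infer_instance
  have hK0K : K0 ≤ K := by rw [hK0]; exact K.normalCore_le
  obtain ⟨L, hL⟩ : ∃ L, L = K0.comap (QuotientGroup.mk' (derivedSeries H 2)) := ⟨_, rfl⟩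
  have hLn : L.Normal := by rw [hL]; infer_instance
  have hLf : L.FiniteIndex := by
    refine ⟨?_⟩
    rw [hL, Subgroup.index_comap_of_surjective _ (QuotientGroup.mk'_surjective _)]
    exact hK0f.index_ne_zero
  have hMM : derivedSeries H 2 = ⁅M, M⁆ := rfl
  have hLa : it L L a ≤ ⁅M, M⁆ := by
    rw [← hMM, ← QuotientGroup.ker_mk' (derivedSeries H 2), ← Subgroup.map_eq_bot_iff, it_eq_lcs,
      map_lowerCentralSeries, eq_bot_iff, ← it_eq_lcs]
    have h1 : L.map (QuotientGroup.mk' (derivedSeries H 2)) ≤ K := by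
      rw [hL]
      exact (Subgroup.map_comap_le _ _).trans hK0K
    exact (it_mono h1 h1 a).trans ha.le
  have hMn : M.Normal := by rw [hM]; infer_instance
  refine ⟨L ⊔ M, Subgroup.finiteIndex_of_le (le_sup_left : L ≤ L ⊔ M), ?_⟩
  rw [isNilpotent_iff_lowerCentralSeries]
  -- `[M, R, …, R] ≤ [M, L, …, L] M'`
  have h1 : ∀ k, it (L ⊔ M) M k ≤ it L M k ⊔ ⁅M, M⁆ := by
    intro k
    induction k with
    | zero => exact le_sup_left
    | succ k ih =>
      have hk := it_normal L M k
      have hk1 := it_normal L M (k + 1)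
      refine (commutator_mono ih le_rfl).trans ?_
      apply sup_comm_le
      · rw [commutator_comm]
        apply sup_comm_le
        · rw [commutator_comm]
          exact le_sup_left
        · rw [commutator_comm]
          exact (commutator_mono (it_le L M k) le_rfl).trans le_sup_right
      · exact (commutator_le_left _ _).trans le_sup_right
  have h2 : it L M (a + 1) ≤ ⁅M, M⁆ := by
    rw [it_succ']
    exact (it_mono le_rfl (commutator_le_right _ _) a).trans hLa
  have h3 : it (L ⊔ M) M (a + 1) ≤ ⁅M, M⁆ := (h1 (a + 1)).trans (sup_le h2 le_rfl)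
  have h4 : it (L ⊔ M) (L ⊔ M) 1 ≤ M := commutator_mono le_top le_top
  obtain ⟨e, he⟩ := hall (L ⊔ M) M (a + 1) c 1 h3 h4 hc
  exact ⟨e, by rw [← it_eq_lcs]; exact he⟩

end Pool.Agent.Helper29.RO
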