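import Pool.Agent.Helper5.RO.Goals

/-!
Project RO (MP_a41896_nt), packet NRM (helper29): norm forms of binary forms.
-/

namespace Pool.Agent.Helper29.RO

open Pool.Agent.Helper29.BL Pool.Agent.Helper29.GC Pool.Agent.Helper5.RO

theorem pw_eq {S : Type} [CommRing S] (α β : S) : ∀ m, pw (α + β) (α * β) m = α ^ m + β ^ m
  | 0 => by show (2 : S) = _; rw [pow_zero, pow_zero]; norm_num
  | 1 => by show α + β = _; rw [pow_one, pow_one]
  | m + 2 => by
    show (α + β) * pw (α + β) (α * β) (m + 1) - α * β * pw (α + β) (α * β) m = _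
    rw [pw_eq α β (m + 1), pw_eq α β m]
    ring

theorem map_pw {R S : Type} [CommRing R] [CommRing S] (φ : R →+* S) (q d : R) :
    ∀ m, φ (pw q d m) = pw (φ q) (φ d) m
  | 0 => by show φ 2 = 2; exact map_ofNat φ 2
  | 1 => rfl
  | m + 2 => by
    show φ (q * pw q d (m + 1) - d * pw q d m) = φ q * pw (φ q) (φ d) (m + 1) - φ d * pw (φ q) (φ d) m
    rw [map_sub, map_mul, map_mul, map_pw φ q d (m + 1), map_pw φ q d m]

/-- a double sum over a square: diagonal plus the two triangles. -/
theorem square_sum {S : Type} [CommRing S] (f : ℕ → ℕ → S) (n : ℕ) :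
    ∑ k ∈ Finset.range n, ∑ l ∈ Finset.range n, f k l
      = ∑ k ∈ Finset.range n, f k k
        + ∑ l ∈ Finset.range n, ∑ k ∈ Finset.range l, (f k l + f l k) := by
  induction n with
  | zero => simp
  | succ n ih =>
    rw [Finset.sum_range_succ, Finset.sum_congr rfl fun k _ => Finset.sum_range_succ (f k) n,
      Finset.sum_add_distrib, ih, Finset.sum_range_succ (fun k => f k k),
      Finset.sum_range_succ (fun l => ∑ k ∈ Finset.range l, (f k l + f l k)),
      Finset.sum_range_succ (f n), Finset.sum_add_distrib (s := Finset.range n)]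
    ring

theorem gNRM : G_NRM := by
  refine ⟨fun S _ D g a b => ?_, fun R S _ _ φ D g p q r => ?_⟩
  · unfold nrm hev1
    rw [Finset.sum_mul_sum, square_sum]
    congr 1
    · refine Finset.sum_congr rfl fun k _ => ?_
      rw [mul_pow, mul_pow]; ring
    · refine Finset.sum_congr rfl fun l hl => ?_
      refine Finset.sum_congr rfl fun k hk => ?_
      rw [Finset.mem_range] at hl hk
      have e : a 0 * b 0 * (a 1 * b 1) = (a 0 * b 1) * (a 1 * b 0) := by ring
      rw [e, pw_eq]
      obtain ⟨d, rfl⟩ : ∃ d, l = k + d := ⟨l - k, by omega⟩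
      obtain ⟨m, rfl⟩ : ∃ m, D = k + d + m := ⟨D - (k + d), by omega⟩
      have e1 : k + d + m - (k + d) = m := by omega
      have e2 : k + d - k = d := by omega
      have e3 : k + d + m - k = d + m := by omega
      rw [e1, e2, e3]
      simp only [mul_pow, pow_add]
      ring
  · unfold nrm
    rw [map_add, map_sum, map_sum]
    congr 1
    · refine Finset.sum_congr rfl fun k _ => ?_
      simp only [map_mul, map_pow]
    · refine Finset.sum_congr rfl fun l _ => ?_
      rw [map_sum]
      refine Finset.sum_congr rfl fun k _ => ?_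
      simp only [map_mul, map_pow, map_pw]

end Pool.Agent.Helper29.RO
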