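import Pool.Agent.Helper5.RO.Goals

/-!
Project RO (MP_a41896_nt), packet PERM (helper29).
-/

namespace Pool.Agent.Helper29.RO

open MvPolynomial
open Pool.Agent.Helper29.BL Pool.Agent.Helper29.GC Pool.Agent.Helper5.RO

theorem gPERM : G_PERM := by
  intro K _ n ι D f σ hf
  have hd : ∀ (p : MvPolynomial (Fin n) K) (i : Fin n),
      degreeOf i (rename σ p) = degreeOf (σ.symm i) p := by
    intro p i
    have := degreeOf_rename_of_injective (p := p) σ.injective (σ.symm i)
    rwa [Equiv.apply_symm_apply] at this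
  refine ⟨fun j i => ?_, fun i => ?_, fun p hp => ?_⟩
  · rw [hd]; exact hf.deg j _
  · obtain ⟨j, hj⟩ := hf.top (σ.symm i)
    exact ⟨j, by rw [hd]; exact hj⟩
  · have h1 : IsUnit (rename σ.symm p) := by
      refine hf.cop _ fun j => ?_
      have h2 := map_dvd (rename σ.symm : MvPolynomial (Fin n) K →ₐ[K] _) (hp j)
      rw [rename_rename] at h2
      simpa using h2
    have h3 := h1.map (rename σ : MvPolynomial (Fin n) K →ₐ[K] _)
    rw [rename_rename] at h3
    simpa using h3

end Pool.Agent.Helper29.RO
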