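import Pool.Agent.Helper29.RO.Alt2
import Pool.Agent.Helper84.RO.MainFI

/-!
# Uniform Rosset theorem: assembly of the final form
-/

namespace Pool.Agent.Helper29.RO

open Pointwise Filter Topology
open Pool.Agent.Helper11.Gap (IsPolycyclic)

universe u v

/-- `Q` is a quotient of `⟨S⟩`, `H` a subgroup of finite index of `Q`, `N` a normal subgroup of `H`,
the derived subgroup of `H ⧸ N` is nilpotent; and `N` is not finitely generated, or `N` is nilpotent
and `H` is not polycyclic. -/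
theorem main_v2 {Γ : Type u} [Group Γ] [DecidableEq Γ] (S : Finset Γ)
    (hsymm : ∀ s ∈ S, s⁻¹ ∈ S) {Q : Type v} [Group Q]
    (φ : Subgroup.closure (S : Set Γ) →* Q) (hφ : Function.Surjective φ) (H : Subgroup Q)
    (hH : H.index ≠ 0) (N : Subgroup H) [hN : N.Normal]
    (hnil : Group.IsNilpotent (commutator (H ⧸ N)))
    (h : ¬ N.FG ∨ (Group.IsNilpotent N ∧ ¬ IsPolycyclic H)) :
    ∃ ρ : ℝ, Tendsto (fun n : ℕ => Real.log ((S ^ n).card : ℝ) / n) atTop (𝓝 ρ) ∧
      Real.log 2 / (328 * (2 * H.index - 1)) ≤ ρ := by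
  have key : ∃ (N : Subgroup H) (_ : N.Normal), Group.IsNilpotent (commutator (H ⧸ N)) ∧
      ¬ N.FG := by
    rcases h with h | ⟨h1, h2⟩
    · exact ⟨N, hN, hnil, h⟩
    · have h3 : Group.FG (Subgroup.closure (S : Set Γ)) :=
        (Group.fg_iff_subgroup_fg _).2 ⟨S, rfl⟩
      have h4 : Group.FG Q := Group.fg_of_surjective (f := φ) hφ
      have h5 : H.FiniteIndex := ⟨hH⟩
      have h6 : Group.FG H := inferInstance
      exact exists_not_fg N h1 hnil h2
  obtain ⟨M, hM, h1, h2⟩ := key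
  exact Pool.Agent.Helper84.RO.main_fi S hsymm φ hφ H H.index (Nat.pos_of_ne_zero hH) rfl M h1 h2

/-- The same with a name for the index. -/
theorem v2 {Γ : Type u} [Group Γ] [DecidableEq Γ] (S : Finset Γ) (hsymm : ∀ s ∈ S, s⁻¹ ∈ S)
    {Q : Type v} [Group Q] (φ : Subgroup.closure (S : Set Γ) →* Q) (hφ : Function.Surjective φ)
    (H : Subgroup Q) (f : ℕ) (hf : 0 < f) (hH : H.index = f) (N : Subgroup H) [hN : N.Normal]
    (hnil : Group.IsNilpotent (commutator (H ⧸ N)))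
    (h : ¬ N.FG ∨ (Group.IsNilpotent N ∧ ¬ IsPolycyclic H)) :
    ∃ ρ : ℝ, Tendsto (fun n : ℕ => Real.log ((S ^ n).card : ℝ) / n) atTop (𝓝 ρ) ∧
      Real.log 2 / (328 * (2 * f - 1)) ≤ ρ := by
  subst hH
  exact main_v2 S hsymm φ hφ H hf.ne' N hnil h

end Pool.Agent.Helper29.RO
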